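import Pool.Agent.Lib.MP_d439b2_co.F9.ClsN
import Pool.Agent.Lib.MP_d439b2_co.RN.Final

/-!
# MP_d439b2_co : the classification of all pairs
-/

namespace Pool.Agent.Results.MP_d439b2_co.Classification

open Pool.Agent.MPd439b2 Pool.Agent.MPd439b2.F9

theorem result (W₁ W₂ : Type) [Finite W₁] [Finite W₂] (H₁ : SimpleGraph W₁)
    (H₂ : SimpleGraph W₂) :
    BoundedCW H₁ H₂ ↔ Kn H₁ ∨ Kn H₂ ∨ ((InGrid H₁ ∨ InGrid H₂) ∧
      (CondF H₁ H₂ ∨ CondF H₂ H₁)) :=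
  clsN RN.nFin W₁ W₂ H₁ H₂

end Pool.Agent.Results.MP_d439b2_co.Classification
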